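import Mathlib
import Pool.Agent.H261R2.FU.Dir3

set_option autoImplicit false

open MeasureTheory

/-- For `p, q ≥ 2` with `log p / log q` irrational there is `0 < κ < 1` (`κ = 2 - log 4 / log 3` if
`p, q` are coprime) such that every atomless probability measure `μ` on `R/Z` invariant under
`x ↦ p x` and `x ↦ q x` satisfies:
(1) for all integers `1 ≤ n_N ≤ 2 ^ N` the series `∑ N ^ (κ - 1) ∫ ‖n_N x‖ ^ 2 dμ` diverges;
(2) for every `κ' > κ` there are arbitrarily large `N` with `∫ ‖n x‖ ^ 2 dμ ≥ N ^ (-κ')` for all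
integers `1 ≤ n ≤ 2 ^ N`;
(3) for every `κ' > κ` there are arbitrarily large `N` such that the characters
`e (p ^ i q ^ j x)`, `i, j ≤ N`, are pairwise at squared `L^2(μ)` distance at least `N ^ (-κ')`;
(4) for all `C` and `0 < D < 4 / κ` there is `0 < ε ≤ 1` such that the orbit `e (p ^ i q ^ j x)`,
`i, j ≥ 0`, cannot be covered by `C ε ^ (-D)` balls of radius `ε` of `L^2(μ)` centred at
characters. -/
theorem Pool.Agent.Results.MP_e27144_an.InfiniteDimensionalOrbits.result :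
    ∀ p q : ℕ, 2 ≤ p → 2 ≤ q → Irrational (Real.log (p : ℝ) / Real.log (q : ℝ)) →
      ∃ κ : ℝ, 0 < κ ∧ κ < 1 ∧ (Nat.Coprime p q → κ = 2 - Real.log 4 / Real.log 3) ∧
        ∀ μ : Measure UnitAddCircle, IsProbabilityMeasure μ →
          MeasurePreserving (fun x : UnitAddCircle => p • x) μ μ →
          MeasurePreserving (fun x : UnitAddCircle => q • x) μ μ →
          (∀ x : UnitAddCircle, μ {x} = 0) →
            (∀ n : ℕ → ℕ, (∀ N, 1 ≤ n N ∧ n N ≤ 2 ^ N) →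
              ¬ Summable (fun N : ℕ => (N : ℝ) ^ (κ - 1) * ∫ x, ‖n N • x‖ ^ 2 ∂μ)) ∧
            (∀ κ' : ℝ, κ < κ' → ∀ N0 : ℕ, ∃ N, N0 ≤ N ∧ ∀ n : ℕ, 1 ≤ n → n ≤ 2 ^ N →
              (N : ℝ) ^ (-κ') ≤ ∫ x, ‖n • x‖ ^ 2 ∂μ) ∧
            (∀ κ' : ℝ, κ < κ' → ∀ N0 : ℕ, ∃ N, N0 ≤ N ∧ ∀ i j k l : ℕ,
              i ≤ N → j ≤ N → k ≤ N → l ≤ N → p ^ i * q ^ j ≠ p ^ k * q ^ l →
              (N : ℝ) ^ (-κ') ≤ ∫ x, ‖fourier ((p ^ i * q ^ j : ℕ) : ℤ) x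
                - fourier ((p ^ k * q ^ l : ℕ) : ℤ) x‖ ^ 2 ∂μ) ∧
            (∀ D C : ℝ, 0 < D → D * κ < 4 → ∃ ε : ℝ, 0 < ε ∧ ε ≤ 1 ∧ ∀ S : Finset ℤ,
              (∀ i j : ℕ, ∃ m ∈ S,
                ∫ x, ‖fourier ((p ^ i * q ^ j : ℕ) : ℤ) x - fourier m x‖ ^ 2 ∂μ ≤ ε ^ 2) →
              C * ε ^ (-D) < S.card) := by
  intro p q hp hq hirr
  obtain ⟨κ, hκ0, hκ1, hκ2, C, hC⟩ := Pool.Agent.H261R2.FU.nonconc p q hp hq hirr
  refine ⟨κ, hκ0, hκ1, hκ2, ?_⟩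
  intro μ hμ hμp hμq hat
  have h1 := fun n hn => Pool.Agent.H261R2.FU.diverges hp hC μ hμp hμq hat n hn
  have h2 := fun κ' hκ' N0 => Pool.Agent.H261R2.FU.dirichlet (μ := μ) h1 κ' hκ' N0
  have h3 := fun κ' hκ' N0 => Pool.Agent.H261R2.FU.separated hp hq (μ := μ) hκ0 h2 κ' hκ' N0
  exact ⟨h1, h2, h3, fun D C hD0 hD =>
    Pool.Agent.H261R2.FU.dimension hp hq hirr (μ := μ) hκ0 h3 D C hD0 hD⟩
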