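import Mathlib
import Pool.Agent.H705R2.Dense

set_option autoImplicit false

open MeasureTheory Filter Topology Set

/-- For every integer `q ≥ 2` and every atomless Borel probability measure `μ` on the circle
`R/Z` which is invariant under `x ↦ q x`, for `μ`-almost every `x` the orbit `{p ^ n x}` is dense
simultaneously for all integers `p ≥ 2` with `log p / log q` irrational. -/
theorem Pool.Agent.Results.MP_e27144_an.OrbitDensity.result :
    ∀ (q : ℕ), 2 ≤ q → ∀ (μ : Measure (AddCircle (1 : ℝ))), IsProbabilityMeasure μ →
      (∀ x : AddCircle (1 : ℝ), μ {x} = 0) →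
      MeasurePreserving (fun x : AddCircle (1 : ℝ) => q • x) μ μ →
      ∀ᵐ x ∂μ, ∀ p : ℕ, 2 ≤ p → Irrational (Real.log p / Real.log q) →
        Dense (Set.range fun n : ℕ => p ^ n • x) := by
  intro q hq μ hprob hatom hμ
  have : NullSingletonClass μ := ⟨hatom⟩
  rw [ae_all_iff]
  intro p
  by_cases hp : 2 ≤ p
  · by_cases hirr : Irrational (Real.log p / Real.log q)
    · have hind : Pool.Agent.H705R2.MulIndep p q := by
        intro m n hmn
        have hp1 : (1 : ℝ) < p := by exact_mod_cast (by omega : 1 < p)
        have hq1 : (1 : ℝ) < q := by exact_mod_cast (by omega : 1 < q)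
        have hlp : 0 < Real.log p := Real.log_pos hp1
        have hlq : 0 < Real.log q := Real.log_pos hq1
        have h1 : (m : ℝ) * Real.log p = n * Real.log q := by
          rw [← Real.log_pow, ← Real.log_pow]
          congr 1
          exact_mod_cast hmn
        have hm : m = 0 := by
          by_contra hm
          apply hirr
          refine ⟨(n : ℚ) / m, ?_⟩
          push_cast
          have hm' : (m : ℝ) ≠ 0 := by exact_mod_cast hm
          rw [div_eq_div_iff hm' hlq.ne']
          linarith
        refine ⟨hm, ?_⟩
        rw [hm, Nat.cast_zero, zero_mul] at h1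
        rcases mul_eq_zero.1 h1.symm with h | h
        · exact_mod_cast h
        · exact absurd h hlq.ne'
      filter_upwards [Pool.Agent.H705R2.ae_dense hp hq hind hμ] with x hx _ _
      exact hx
    · filter_upwards with x _ h
      exact absurd h hirr
  · filter_upwards with x h
    exact absurd h hp
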