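import Mathlib
import Pool.Agent.H706R2.Ren5

set_option autoImplicit false

open MeasureTheory

/-- **Positivity of the low Rényi dimensions of `×p, ×q` invariant measures.**  Let `p` be a prime
and `q ≥ 2` an integer which `p` does not divide (for instance `p = 2`, `q = 3`, or `p = 3`,
`q = 2`).  Let `μ` be an atomless probability measure on the circle `R/Z` which is invariant under
`x ↦ p x` and under `x ↦ q x`.  Then, for every `0 < s < 1/3` and every `t < (1 - 3 s) / 2`, the sum
`∑ μ(I) ^ s` over the `n` arcs `I = [j/n, (j+1)/n)` is at least `n ^ t` for infinitely many `n`. -/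
theorem Pool.Agent.Results.MP_e27144_an.RenyiDimension.result :
    ∀ p q : ℕ, p.Prime → 2 ≤ q → ¬ p ∣ q →
      ∀ μ : Measure UnitAddCircle, IsProbabilityMeasure μ → (∀ x, μ {x} = 0) →
        MeasurePreserving (fun x : UnitAddCircle => p • x) μ μ →
        MeasurePreserving (fun x : UnitAddCircle => q • x) μ μ →
        ∀ s t : ℝ, 0 < s → s < 1 / 3 → t < (1 - 3 * s) / 2 →
          ∃ᶠ n : ℕ in Filter.atTop, (n : ℝ) ^ t ≤ ∑ j ∈ Finset.range n,
            μ.real ((fun x : ℝ => (x : UnitAddCircle)) ''
              Set.Ico ((j : ℝ) / n) (((j : ℝ) + 1) / n)) ^ s := by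
  intro p q hp hq hpq μ hμ hna hip hiq s t hs hs3 ht
  exact Pool.Agent.H706R2.Ren.renyi p q hp hq hpq μ hna hip hiq s t hs hs3 ht
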