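import Mathlib
import Pool.Agent.H706R2.Ren4

set_option autoImplicit false

open MeasureTheory

open Classical in
/-- **Slow convergence of the `×q` ergodic averages.**  Let `p` be a prime and `q ≥ 2` an integer
which `p` does not divide.  There is `c > 0`, depending only on `p` and `q`, such that for every
atomless probability measure `μ` on the circle invariant under `x ↦ p x` and `x ↦ q x`, every
`0 < κ ≤ 1/2` and every union `U` of `K ≥ 1` closed arcs of radius `ρ` with `ρ K² ≤ c κ`, the
probabilities of the events that the orbit segment `y, q y, …, q ^ (L - 1) y` spends at least the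
proportion `1/2 - κ` of its time outside `U` have a divergent sum over `L`. -/
theorem Pool.Agent.Results.MP_e27144_an.SlowErgodicAverages.result :
    ∀ p q : ℕ, p.Prime → 2 ≤ q → ¬ p ∣ q → ∃ c : ℝ, 0 < c ∧
      ∀ μ : Measure UnitAddCircle, IsProbabilityMeasure μ → (∀ x, μ {x} = 0) →
        MeasurePreserving (fun x : UnitAddCircle => p • x) μ μ →
        MeasurePreserving (fun x : UnitAddCircle => q • x) μ μ →
        ∀ (κ : ℝ) (K : ℕ) (cen : Fin K → UnitAddCircle) (ρ : ℝ), 0 < κ → κ ≤ 1 / 2 → 1 ≤ K →
          ρ * K ^ 2 ≤ c * κ →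
          ¬ Summable fun L : ℕ => μ.real {y : UnitAddCircle | (1 / 2 - κ) * L ≤
            ((Finset.range L).filter fun i =>
              (q ^ i) • y ∉ ⋃ a : Fin K, Metric.closedBall (cen a) ρ).card} := by
  intro p q hp hq hpq
  obtain ⟨c, hc, h⟩ := Pool.Agent.H706R2.Ren.averages p q hp hq hpq
  refine ⟨c, hc, fun μ hμ hna hip hiq κ K cen ρ hκ hκ1 hK hρ => ?_⟩
  have h1 := h μ hμ hna hip hiq κ K cen ρ hκ hκ1 hK hρ
  intro hs
  apply h1
  refine hs.congr fun L => ?_
  congr! 4
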